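import Pool.Agent.Lib.MP_84984d_gt.Tri.Asm92
import Pool.Agent.Lib.MP_84984d_gt.Tri.PL21
import Pool.Agent.Lib.MP_84984d_gt.Tri.PLd21
import Pool.Agent.Lib.MP_84984d_gt.Tri.W63
import Pool.Agent.Lib.MP_84984d_gt.Tri.Arc63

set_option autoImplicit false

/-!
A closed 4-manifold with a smooth trisection of genus 10 which is the mapping torus of
diffeomorphisms of 3-manifolds of arbitrarily large Heegaard genus.
-/

namespace Pool.Agent.Results.MP_84984d_gt.GenusGap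

open Pool.Agent.Lib.MP_84984d_gt

theorem result :
    HasTrisection (MM 1 ×ˢ Metric.sphere (0 : ℂ) 1) 10 4 4 4 ∧ HasSplitting (MM 1) 2 ∧
    ∀ (r : ℕ) (hr : r ≠ 0), IsClosedHyp (MM r) ∧ (∀ p, ph r p ∈ MM r ↔ p ∈ MM r) ∧
      IsTorus (MM r) (ph r) (MM 1 ×ˢ Metric.sphere (0 : ℂ) 1) ∧
      Nonempty (MT (phM r hr) ≃ₜ MM 1 × Metric.sphere (0 : ℂ) 1) ∧
      ∀ g : ℕ, HasSplitting (MM r) g → r + 1 ≤ g ∧ (3 ≤ r → 10 < 3 * g + 1) := by
  refine ⟨Tri.hasTri Tri.PL21.stBase_21 Tri.PL21.stEnd_21 Tri.PL21.stCore_21 Tri.PL21.stPos_21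
    Tri.stW_63 Tri.stArc_63, splitting_two, fun r hr => ⟨MM_hyp hr, ph_mem hr, MM_torus hr,
    torus hr, fun g h => ?_⟩⟩
  have := genus_ge hr h
  exact ⟨this, fun _ => by omega⟩

end Pool.Agent.Results.MP_84984d_gt.GenusGap
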